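import Pool.Agent.helper45.SAB.Fin

/-!
# MP_e88537_al: abelian normal subloops with a Moufang supplement
-/

set_option autoImplicit false

universe u v

namespace Pool.Agent.helper45.Reserve.AbelianKernels

open Pool.Agent.Results.MP_e88537_al.NilpotentLoops

/-- The kernel of the homomorphism `f : Q → K` is abelian (in the sense of commutator theory): on triples of
elements with equal images, the difference term `(x / y) z` is a homomorphism. -/
def AbelianKernel {Q : Type u} {K : Type v} [Mul Q] [One Q] [IsLoop Q] (f : Q → K) : Prop :=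
  ∀ x y z x' y' z' : Q, f x = f y → f y = f z → f x' = f y' → f y' = f z' →
    (rdiv x y * z) * (rdiv x' y' * z') = rdiv (x * x') (y * y') * (z * z')

/-- **Theorem.** Let `Q` be a semi-universally flexible loop with the inverse property, and let `f : Q → K` be a
homomorphism whose kernel is abelian. Let `H` be a subset of `Q` closed under products and inverses `x \ 1` (a
subloop) which meets every class of `f` and whose elements satisfy the Moufang identity. Then `Q` is Moufang. -/
theorem result (Q : Type u) [Mul Q] [One Q] [IsLoop Q] (hip : IP Q) (hsuf : SUF Q)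
    (K : Type v) [Mul K] (f : Q → K) (hom : ∀ x y : Q, f (x * y) = f x * f y) (hab : AbelianKernel f)
    (H : Set Q) (hmul : ∀ x ∈ H, ∀ y ∈ H, x * y ∈ H) (hinv : ∀ x ∈ H, ldiv x 1 ∈ H)
    (hH : ∀ x ∈ H, ∀ y ∈ H, ∀ z ∈ H, (x * (y * z)) * x = (x * y) * (z * x))
    (hcov : ∀ x : Q, ∃ y ∈ H, f y = f x) : Moufang Q := by
  have h : Pool.Agent.helper45.SAB.Ab f (fun x : Q => ldiv x 1) :=
    { toSys := sys_of hip hsuf
      o1 := IsLoop.one_mul
      o2 := IsLoop.mul_one
      hom := hom
      ab := by
        intro a1 b1 c1 a2 b2 c2 h1 h2 h3 h4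
        have e := hab a1 b1 c1 a2 b2 c2 h1 h2 h3 h4
        rw [((hip b1).2 a1).2, ((hip b2).2 a2).2, ((hip (b1 * b2)).2 (a1 * a2)).2] at e
        exact e }
  have hS : Pool.Agent.helper45.SAB.Sup f (fun x : Q => ldiv x 1) (fun x => x ∈ H) :=
    { mul := fun a b ha hb => hmul a ha b hb
      inv := fun a ha => hinv a ha
      mf := fun a b c ha hb hc => hH a ha b hb c hc
      cov := fun q => by
        obtain ⟨y, hy, e⟩ := hcov q
        exact ⟨y, hy, e⟩ }
  exact fun x y z => Pool.Agent.helper45.SAB.all_mf h hS x y z

end Pool.Agent.helper45.Reserve.AbelianKernels
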