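import Pool.Agent.helper45.SGC.All

/-!
MP_069684_lc: 3SAT has polynomial-size circuits which respect a sequence of groups of sign changes if and only if the
groups have polynomially bounded order and P/Poly = NP/Poly.
-/

set_option autoImplicit false

namespace Pool.Agent.Results.MP_069684_lc.SymmetryThreshold

open Pool.Agent.helper38.Neg Pool.Agent.helper55.NT Pool.Agent.SGC

/-- Circuits with arbitrary symmetric gates which respect a group `V` of sign changes of the variables of 3SAT instances.
(1) The threshold: for every sequence `V n` the following are equivalent: the orders of the groups `V n` are polynomially bounded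
and P/Poly = NP/Poly; all languages of NP/Poly whose slices are invariant under `V n` have polynomial-size circuits respecting
`V n`; 3SAT has such circuits.
(2) A circuit with `s` gates which respects `V` and decides 3SAT or 3XOR on words of length `n` has `|V| ≤ (s + 2) ^ 240`.
(3) Every `V`-invariant property with a circuit of `s` AND, OR, NOT gates has a circuit respecting `V` with at most
`|V| s + n + 1` gates. -/
theorem result :
    (∀ V : (n : ℕ) → Submodule (ZMod 2) (Sg (tv n)),
      [(∃ q : Polynomial ℕ, ∀ n, Nat.card (V n) ≤ q.eval n) ∧ ∀ A, InNPPoly A → InPPoly A,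
        ∀ A, InNPPoly A → (∀ n, Inva (V n) (A n)) → SymPoly V A,
        SymPoly V SAT3].TFAE) ∧
    (∀ (n s : ℕ) (V : Submodule (ZMod 2) (Sg (tv n))) (C : SCirc n (Fin s)), Symm V C →
      ((∀ x, C.val x C.out = true ↔ SAT3 n x) ∨ ∀ x, C.val x C.out = true ↔ XOR3 n x) →
      Nat.card V ≤ (s + 2) ^ 240) ∧
    ∀ (n s : ℕ) (V : Submodule (ZMod 2) (Sg (tv n))) (C : Circuit n s) (o : Fin (n + s))
      (f : (Fin n → Bool) → Prop), C.Computes o f → Inva V f →
      ∃ s' ≤ n + Nat.card V * s + 1, ∃ C' : SCirc n (Fin s'), Symm V C' ∧ ∀ x, C'.val x C'.out = true ↔ f x :=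
  ⟨all_thr, all_lower, aSMT⟩

end Pool.Agent.Results.MP_069684_lc.SymmetryThreshold
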